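import Mathlib

/-! Closed walks: traces of powers of `Nᵀ * N`, and the number of walks with few vertices. -/

namespace Pool.Agent.R19.AH

open Finset Matrix

/-- a walk has at most one more vertex than it has edges -/
theorem tree_ineq {α β : Type*} [DecidableEq α] [DecidableEq β] (i : ℕ → α) (j : ℕ → β) (s : ℕ) :
    ((range s).image i).card + ((range (s + 1)).image j).card ≤
      ((range s).image (fun t => (i t, j t)) ∪ (range s).image (fun t => (i t, j (t + 1)))).card +
        1 := by
  induction s with
  | zero => simp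
  | succ s ih =>
    obtain ⟨E, hE⟩ : ∃ E : Finset (α × β), E = (range s).image (fun t => (i t, j t)) ∪
        (range s).image (fun t => (i t, j (t + 1))) := ⟨_, rfl⟩
    rw [← hE] at ih
    have hE1 : ∀ e ∈ E, e.1 ∈ (range s).image i ∧ e.2 ∈ (range (s + 1)).image j := by
      intro e he
      rw [hE, Finset.mem_union, Finset.mem_image, Finset.mem_image] at he
      rcases he with ⟨t, ht, rfl⟩ | ⟨t, ht, rfl⟩
      · rw [Finset.mem_range] at ht
        exact ⟨Finset.mem_image.2 ⟨t, Finset.mem_range.2 ht, rfl⟩,
          Finset.mem_image.2 ⟨t, Finset.mem_range.2 (by omega), rfl⟩⟩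
      · rw [Finset.mem_range] at ht
        exact ⟨Finset.mem_image.2 ⟨t, Finset.mem_range.2 ht, rfl⟩,
          Finset.mem_image.2 ⟨t + 1, Finset.mem_range.2 (by omega), rfl⟩⟩
    have hnew : (range (s + 1)).image (fun t => (i t, j t)) ∪
        (range (s + 1)).image (fun t => (i t, j (t + 1))) =
        insert (i s, j (s + 1)) (insert (i s, j s) E) := by
      rw [Finset.range_add_one, Finset.image_insert, Finset.image_insert, hE]
      ext e
      simp only [Finset.mem_union, Finset.mem_insert]
      tauto
    rw [hnew]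
    have h1 : ((range (s + 1)).image i) = insert (i s) ((range s).image i) := by
      rw [Finset.range_add_one, Finset.image_insert]
    have h2 : ((range (s + 1 + 1)).image j) = insert (j (s + 1)) ((range (s + 1)).image j) := by
      rw [Finset.range_add_one (n := s + 1), Finset.image_insert]
    rw [h1, h2]
    have h3 : (insert (i s) ((range s).image i)).card + E.card ≤
        ((range s).image i).card + (insert (i s, j s) E).card := by
      by_cases h : i s ∈ (range s).image i
      · rw [Finset.insert_eq_of_mem h]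
        have := Finset.card_le_card (Finset.subset_insert (i s, j s) E)
        omega
      · have hn : (i s, j s) ∉ E := fun he => h (hE1 _ he).1
        rw [Finset.card_insert_of_notMem h, Finset.card_insert_of_notMem hn]
        omega
    have h4 : (insert (j (s + 1)) ((range (s + 1)).image j)).card + (insert (i s, j s) E).card ≤
        ((range (s + 1)).image j).card +
          (insert (i s, j (s + 1)) (insert (i s, j s) E)).card := by
      by_cases h : j (s + 1) ∈ (range (s + 1)).image j
      · rw [Finset.insert_eq_of_mem h]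
        have := Finset.card_le_card (Finset.subset_insert (i s, j (s + 1)) (insert (i s, j s) E))
        omega
      · have hn : (i s, j (s + 1)) ∉ insert (i s, j s) E := by
          intro he
          rcases Finset.mem_insert.1 he with h5 | h5
          · have h6 : j (s + 1) = j s := congrArg Prod.snd h5
            exact h (h6 ▸ Finset.mem_image.2 ⟨s, Finset.mem_range.2 (by omega), rfl⟩)
          · exact h (hE1 _ h5).2
        rw [Finset.card_insert_of_notMem h, Finset.card_insert_of_notMem hn]
        omega
    omega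

/-- functions with few values -/
theorem card_image_eq_le (n K a : ℕ) :
    (univ.filter fun f : Fin K → Fin n => (univ.image f).card = a).card ≤ n ^ a * K ^ K := by
  classical
  rcases Nat.lt_or_ge K a with hKa | hKa
  · rw [Finset.card_eq_zero.2]
    · exact Nat.zero_le _
    · rw [Finset.filter_eq_empty_iff]
      intro f _ hf
      have h := Finset.card_image_le (s := (univ : Finset (Fin K))) (f := f)
      rw [Finset.card_univ, Fintype.card_fin] at h
      omega
  have h1 : (univ.filter fun f : Fin K → Fin n => (univ.image f).card = a) ⊆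
      (univ : Finset ((Fin a → Fin n) × (Fin K → Fin a))).image (fun p => p.1 ∘ p.2) := by
    intro f hf
    have hfa := (Finset.mem_filter.1 hf).2
    rw [Finset.mem_image]
    have e : (univ.image f) ≃ Fin a := (univ.image f).equivFinOfCardEq hfa
    refine ⟨(fun t => (e.symm t : Fin n),
      fun t => e ⟨f t, Finset.mem_image.2 ⟨t, Finset.mem_univ _, rfl⟩⟩), Finset.mem_univ _, ?_⟩
    funext t
    simp
  refine (Finset.card_le_card h1).trans (Finset.card_image_le.trans ?_)
  rw [Finset.card_univ, Fintype.card_prod, Fintype.card_fun, Fintype.card_fun, Fintype.card_fin,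
    Fintype.card_fin, Fintype.card_fin]
  exact Nat.mul_le_mul_left _ (Nat.pow_le_pow_left hKa _)

/-- a walk with prescribed ends -/
def ext {n k : ℕ} (a : Fin n) (f : Fin k → Fin n) (b : Fin n) (s : ℕ) : Fin n :=
  if s = 0 then a else if h : s - 1 < k then f ⟨s - 1, h⟩ else b

theorem ext_snoc {n k : ℕ} (a : Fin n) (f : Fin k → Fin n) (c b : Fin n) (s : ℕ) (hs : s ≤ k + 1) :
    ext a (Fin.snoc f c : Fin (k + 1) → Fin n) b s = ext a f c s := by
  unfold ext
  by_cases h0 : s = 0
  · simp [h0]
  · rw [if_neg h0, if_neg h0, dif_pos (by omega : s - 1 < k + 1)]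
    by_cases h1 : s - 1 < k
    · rw [dif_pos h1]
      simp [Fin.snoc, h1]
    · rw [dif_neg h1]
      simp [Fin.snoc, h1]

theorem pow_path {n : ℕ} (A : Matrix (Fin n) (Fin n) ℝ) (k : ℕ) : ∀ a b : Fin n,
    (A ^ (k + 1)) a b = ∑ f : Fin k → Fin n, ∏ s ∈ range (k + 1),
      A (ext a f b s) (ext a f b (s + 1)) := by
  induction k with
  | zero =>
    intro a b
    simp [ext]
  | succ k ih =>
    intro a b
    rw [pow_succ, Matrix.mul_apply]
    rw [← (Fin.snocEquiv (fun _ : Fin (k + 1) => Fin n)).sum_comp, Fintype.sum_prod_type]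
    refine Finset.sum_congr rfl fun c _ => ?_
    rw [ih a c, Finset.sum_mul]
    refine Finset.sum_congr rfl fun f _ => ?_
    rw [Finset.prod_range_succ (n := k + 1)]
    have e : (Fin.snocEquiv (fun _ : Fin (k + 1) => Fin n)) (c, f) =
        (Fin.snoc f c : Fin (k + 1) → Fin n) := rfl
    rw [e]
    congr 1
    · refine Finset.prod_congr rfl fun s hs => ?_
      rw [Finset.mem_range] at hs
      rw [ext_snoc _ _ _ _ _ (by omega), ext_snoc _ _ _ _ _ (by omega)]
    · rw [ext_snoc _ _ _ _ _ (by omega)]
      have h1 : ext a f c (k + 1) = c := by simp [ext]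
      have h2 : ext a (Fin.snoc f c : Fin (k + 1) → Fin n) b (k + 1 + 1) = b := by simp [ext]
      rw [h1, h2]

/-- periodic extension -/
def per {n k : ℕ} (J : Fin (k + 1) → Fin n) (s : ℕ) : Fin n := J (Fin.ofNat (k + 1) s)

theorem per_cons {n k : ℕ} (a : Fin n) (f : Fin k → Fin n) (s : ℕ) (hs : s ≤ k + 1) :
    ext a f a s = per (Fin.cons a f : Fin (k + 1) → Fin n) s := by
  unfold ext per
  rcases Nat.eq_zero_or_pos s with h0 | h0
  · subst h0
    simp
  · rw [if_neg (by omega)]
    rcases Nat.lt_or_ge s (k + 1) with h1 | h1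
    · have h2 : Fin.ofNat (k + 1) s = Fin.succ ⟨s - 1, by omega⟩ := by
        apply Fin.ext
        simp only [Fin.val_ofNat, Fin.val_succ]
        rw [Nat.mod_eq_of_lt h1]
        omega
      rw [h2, Fin.cons_succ, dif_pos (by omega)]
    · have h3 : s = k + 1 := by omega
      have h2 : Fin.ofNat (k + 1) s = 0 := by
        apply Fin.ext
        simp [h3]
      rw [h2, Fin.cons_zero, dif_neg (by omega)]

theorem trace_path {n : ℕ} (A : Matrix (Fin n) (Fin n) ℝ) (k : ℕ) :
    (A ^ (k + 1)).trace = ∑ J : Fin (k + 1) → Fin n, ∏ s ∈ range (k + 1),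
      A (per J s) (per J (s + 1)) := by
  rw [Matrix.trace, ← (Fin.consEquiv (fun _ : Fin (k + 1) => Fin n)).sum_comp,
    Fintype.sum_prod_type]
  refine Finset.sum_congr rfl fun a _ => ?_
  rw [Matrix.diag_apply, pow_path]
  refine Finset.sum_congr rfl fun f _ => ?_
  have e : (Fin.consEquiv (fun _ : Fin (k + 1) => Fin n)) (a, f) =
      (Fin.cons a f : Fin (k + 1) → Fin n) := rfl
  rw [e]
  refine Finset.prod_congr rfl fun s hs => ?_
  rw [Finset.mem_range] at hs
  rw [per_cons _ _ _ (by omega), per_cons _ _ _ (by omega)]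

/-- the edges of a walk -/
def edg {n k : ℕ} (I J : Fin (k + 1) → Fin n) (t : Fin (k + 1) × Bool) : Fin n × Fin n :=
  (I t.1, if t.2 then per J (t.1 + 1) else per J t.1)

theorem trace_edg {n : ℕ} (N : Matrix (Fin n) (Fin n) ℝ) (k : ℕ) :
    ((Nᵀ * N) ^ (k + 1)).trace = ∑ J : Fin (k + 1) → Fin n, ∑ I : Fin (k + 1) → Fin n,
      ∏ t : Fin (k + 1) × Bool, N (edg I J t).1 (edg I J t).2 := by
  rw [trace_path]
  refine Finset.sum_congr rfl fun J _ => ?_
  rw [Finset.prod_range fun s => (Nᵀ * N) (per J s) (per J (s + 1))]
  simp only [Matrix.mul_apply, Matrix.transpose_apply]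
  rw [Finset.prod_univ_sum, Fintype.piFinset_univ]
  refine Finset.sum_congr rfl fun I _ => ?_
  rw [Fintype.prod_prod_type]
  refine Finset.prod_congr rfl fun s _ => ?_
  rw [Fintype.prod_bool]
  simp only [edg, if_true, Bool.false_eq_true, if_false]
  ring

theorem per_val {n k : ℕ} (J : Fin (k + 1) → Fin n) (s : Fin (k + 1)) : per J s = J s := by
  unfold per
  congr 1
  apply Fin.ext
  simp only [Fin.val_ofNat]
  exact Nat.mod_eq_of_lt s.2

/-- number of vertices and edges of a closed walk -/
theorem walk_ineq {n k : ℕ} (I J : Fin (k + 1) → Fin n) :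
    (univ.image I).card + (univ.image J).card ≤ (univ.image (edg I J)).card + 1 := by
  have h := tree_ineq (per I) (per J) (k + 1)
  have h1 : (range (k + 1)).image (per I) = univ.image I := by
    ext x
    simp only [Finset.mem_image, Finset.mem_range, Finset.mem_univ, true_and]
    constructor
    · rintro ⟨s, -, rfl⟩
      exact ⟨_, rfl⟩
    · rintro ⟨s, rfl⟩
      exact ⟨s, s.2, per_val I s⟩
  have h2 : univ.image J ⊆ (range (k + 1 + 1)).image (per J) := by
    intro x
    simp only [Finset.mem_image, Finset.mem_range, Finset.mem_univ, true_and]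
    rintro ⟨s, rfl⟩
    exact ⟨s, by omega, per_val J s⟩
  have h3 : (range (k + 1)).image (fun t => (per I t, per J t)) ∪
      (range (k + 1)).image (fun t => (per I t, per J (t + 1))) ⊆ univ.image (edg I J) := by
    intro x
    simp only [Finset.mem_union, Finset.mem_image, Finset.mem_range, Finset.mem_univ, true_and]
    rintro (⟨s, hs, rfl⟩ | ⟨s, hs, rfl⟩)
    · refine ⟨(⟨s, hs⟩, false), ?_⟩
      simp only [edg, Bool.false_eq_true, if_false]
      rw [← per_val I ⟨s, hs⟩]
    · refine ⟨(⟨s, hs⟩, true), ?_⟩
      simp only [edg, if_true]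
      rw [← per_val I ⟨s, hs⟩]
  have h4 := Finset.card_le_card h2
  have h5 := Finset.card_le_card h3
  rw [h1] at h
  omega

end Pool.Agent.R19.AH
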