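import Pool.Agent.R19.AH.Noise
import Pool.Agent.R19.AH.Walk

/-! The trace method: random signs with prescribed means. -/

namespace Pool.Agent.R19.AH

open Finset Matrix

/-- the noise matrix -/
def NM {n : ℕ} (P : Fin n × Fin n → ℝ) (ω : Fin n × Fin n → Bool) : Matrix (Fin n) (Fin n) ℝ :=
  Matrix.of fun i j => nz (P (i, j)) (ω (i, j))

theorem sum_card_le (n K : ℕ) (F : ℕ → ℝ) (hF : ∀ a, 0 ≤ F a) :
    ∑ I : Fin K → Fin n, F (univ.image I).card ≤
      ∑ a ∈ range (K + 1), (n : ℝ) ^ a * (K : ℝ) ^ K * F a := by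
  have hm : ∀ I ∈ (univ : Finset (Fin K → Fin n)), (univ.image I).card ∈ range (K + 1) := by
    intro I _
    rw [Finset.mem_range]
    have h := Finset.card_image_le (s := (univ : Finset (Fin K))) (f := I)
    rw [Finset.card_univ, Fintype.card_fin] at h
    omega
  rw [← Finset.sum_fiberwise_of_maps_to hm]
  refine Finset.sum_le_sum fun a _ => ?_
  rw [Finset.sum_congr rfl (g := fun _ => F a) fun I hI => by rw [(Finset.mem_filter.1 hI).2],
    Finset.sum_const, nsmul_eq_mul]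
  apply mul_le_mul_of_nonneg_right _ (hF a)
  have h := card_image_eq_le n K a
  exact_mod_cast h

/-- the bound for one closed walk -/
noncomputable def Gf (K : ℕ) (v : ℝ) (a b : ℕ) : ℝ := if a + b ≤ K + 1 then 4 ^ K * v ^ (a + b - 1) else 0

theorem Gf_nonneg {K : ℕ} {v : ℝ} (hv : 0 ≤ v) (a b : ℕ) : 0 ≤ Gf K v a b := by
  unfold Gf
  split_ifs
  · positivity
  · exact le_rfl

theorem E_walk {n k : ℕ} (P : Fin n × Fin n → ℝ) (hP : ∀ e, |P e| ≤ 1) {v : ℝ} (hv0 : 0 ≤ v)
    (hv : ∀ e, 1 - P e ^ 2 ≤ v) (hv1 : v ≤ 1) (I J : Fin (k + 1) → Fin n) :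
    ∑ ω, W P ω * ∏ t : Fin (k + 1) × Bool, (NM P ω) (edg I J t).1 (edg I J t).2 ≤
      Gf (k + 1) v (univ.image I).card (univ.image J).card := by
  have h := E_mono P hP hv (edg I J)
  have e1 : ∀ ω, ∏ t : Fin (k + 1) × Bool, (NM P ω) (edg I J t).1 (edg I J t).2 =
      ∏ t, nz (P (edg I J t)) (ω (edg I J t)) := fun ω => rfl
  rw [Finset.sum_congr rfl fun ω _ => by rw [e1 ω]]
  refine h.trans ?_
  split_ifs with h1
  · exact Gf_nonneg hv0 _ _
  · push Not at h1
    obtain ⟨d, hd⟩ : ∃ d, d = (univ.image (edg I J)).card := ⟨_, rfl⟩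
    have h2 : 2 * d ≤ 2 * (k + 1) := by
      have h3 : ∑ e ∈ univ.image (edg I J), 2 ≤
          ∑ e ∈ univ.image (edg I J), (univ.filter fun t => edg I J t = e).card := by
        refine Finset.sum_le_sum fun e he => ?_
        have h4 := h1 e he
        obtain ⟨t, -, ht⟩ := Finset.mem_image.1 he
        have h5 : 0 < (univ.filter fun t => edg I J t = e).card :=
          Finset.card_pos.2 ⟨t, Finset.mem_filter.2 ⟨Finset.mem_univ _, ht⟩⟩
        omega
      rw [← Finset.card_eq_sum_card_image, Finset.card_univ, Fintype.card_prod, Fintype.card_fin,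
        Fintype.card_bool, Finset.sum_const, smul_eq_mul, ← hd] at h3
      omega
    have h3 := walk_ineq I J
    rw [← hd] at h3 ⊢
    unfold Gf
    rw [if_pos (by omega), Fintype.card_prod, Fintype.card_fin, Fintype.card_bool]
    have e2 : (2 : ℝ) ^ ((k + 1) * 2) = 4 ^ (k + 1) := by
      rw [mul_comm, pow_mul]; norm_num
    rw [e2]
    apply mul_le_mul_of_nonneg_left _ (by positivity)
    exact pow_le_pow_of_le_one hv0 hv1 (by omega)

/-- the constant -/
noncomputable def Cst (K : ℕ) : ℝ := ((K : ℝ) + 1) ^ 2 * ((K : ℝ) ^ K * (K : ℝ) ^ K * 4 ^ K)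

theorem moment {n k : ℕ} (hn : 1 ≤ n) (P : Fin n × Fin n → ℝ) (hP : ∀ e, |P e| ≤ 1) {v : ℝ}
    (hv0 : 0 ≤ v) (hv : ∀ e, 1 - P e ^ 2 ≤ v) (hv1 : v ≤ 1) (hnv : 1 ≤ n * v) :
    ∑ ω, W P ω * (((NM P ω)ᵀ * NM P ω) ^ (k + 1)).trace ≤
      Cst (k + 1) * (n * (n * v) ^ (k + 1)) := by
  have hn1 : (1 : ℝ) ≤ n := by exact_mod_cast hn
  calc ∑ ω, W P ω * (((NM P ω)ᵀ * NM P ω) ^ (k + 1)).trace
      = ∑ J : Fin (k + 1) → Fin n, ∑ I : Fin (k + 1) → Fin n, ∑ ω, W P ω *
          ∏ t : Fin (k + 1) × Bool, (NM P ω) (edg I J t).1 (edg I J t).2 := by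
        simp_rw [trace_edg, Finset.mul_sum]
        rw [Finset.sum_comm]
        refine Finset.sum_congr rfl fun J _ => ?_
        rw [Finset.sum_comm]
    _ ≤ ∑ J : Fin (k + 1) → Fin n, ∑ I : Fin (k + 1) → Fin n,
          Gf (k + 1) v (univ.image I).card (univ.image J).card :=
        Finset.sum_le_sum fun J _ => Finset.sum_le_sum fun I _ => E_walk P hP hv0 hv hv1 I J
    _ ≤ ∑ J : Fin (k + 1) → Fin n, ∑ a ∈ range (k + 1 + 1),
          (n : ℝ) ^ a * ((k + 1 : ℕ) : ℝ) ^ (k + 1) * Gf (k + 1) v a (univ.image J).card :=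
        Finset.sum_le_sum fun J _ =>
          sum_card_le n (k + 1) (fun a => Gf (k + 1) v a (univ.image J).card)
            fun a => Gf_nonneg hv0 _ _
    _ = ∑ a ∈ range (k + 1 + 1), (n : ℝ) ^ a * ((k + 1 : ℕ) : ℝ) ^ (k + 1) *
          ∑ J : Fin (k + 1) → Fin n, Gf (k + 1) v a (univ.image J).card := by
        rw [Finset.sum_comm]
        simp_rw [Finset.mul_sum]
    _ ≤ ∑ a ∈ range (k + 1 + 1), (n : ℝ) ^ a * ((k + 1 : ℕ) : ℝ) ^ (k + 1) *
          ∑ b ∈ range (k + 1 + 1), (n : ℝ) ^ b * ((k + 1 : ℕ) : ℝ) ^ (k + 1) *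
            Gf (k + 1) v a b := by
        refine Finset.sum_le_sum fun a _ => ?_
        apply mul_le_mul_of_nonneg_left _ (by positivity)
        exact sum_card_le n (k + 1) (fun b => Gf (k + 1) v a b) fun b => Gf_nonneg hv0 _ _
    _ ≤ ∑ a ∈ range (k + 1 + 1), ∑ b ∈ range (k + 1 + 1),
          ((k + 1 : ℕ) : ℝ) ^ (k + 1) * ((k + 1 : ℕ) : ℝ) ^ (k + 1) * 4 ^ (k + 1) *
            (n * (n * v) ^ (k + 1)) := by
        refine Finset.sum_le_sum fun a _ => ?_
        rw [Finset.mul_sum]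
        refine Finset.sum_le_sum fun b _ => ?_
        have h1 : (n : ℝ) ^ a * n ^ b * Gf (k + 1) v a b ≤ 4 ^ (k + 1) * (n * (n * v) ^ (k + 1)) := by
          unfold Gf
          split_ifs with hab
          · have h2 : (n : ℝ) ^ a * n ^ b * v ^ (a + b - 1) ≤ n * (n * v) ^ (k + 1) := by
              rcases Nat.eq_zero_or_pos (a + b) with h0 | h0
              · have ha : a = 0 := by omega
                have hb : b = 0 := by omega
                subst ha hb
                simp only [pow_zero, mul_one, add_zero, zero_tsub]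
                have := one_le_pow₀ hnv (n := k + 1)
                nlinarith
              · have e1 : (n : ℝ) ^ a * n ^ b = n * n ^ (a + b - 1) := by
                  rw [← pow_add, ← pow_succ']
                  congr 1
                  omega
                rw [e1, mul_assoc, ← mul_pow]
                apply mul_le_mul_of_nonneg_left _ (by linarith)
                exact pow_le_pow_right₀ hnv (by omega)
            calc (n : ℝ) ^ a * n ^ b * (4 ^ (k + 1) * v ^ (a + b - 1)) =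
                4 ^ (k + 1) * ((n : ℝ) ^ a * n ^ b * v ^ (a + b - 1)) := by ring
              _ ≤ _ := mul_le_mul_of_nonneg_left h2 (by positivity)
          · rw [mul_zero]
            have : 0 ≤ n * v := by linarith
            positivity
        calc (n : ℝ) ^ a * ((k + 1 : ℕ) : ℝ) ^ (k + 1) *
            ((n : ℝ) ^ b * ((k + 1 : ℕ) : ℝ) ^ (k + 1) * Gf (k + 1) v a b) =
            ((k + 1 : ℕ) : ℝ) ^ (k + 1) * ((k + 1 : ℕ) : ℝ) ^ (k + 1) *
              ((n : ℝ) ^ a * n ^ b * Gf (k + 1) v a b) := by ring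
          _ ≤ ((k + 1 : ℕ) : ℝ) ^ (k + 1) * ((k + 1 : ℕ) : ℝ) ^ (k + 1) *
              (4 ^ (k + 1) * (n * (n * v) ^ (k + 1))) :=
            mul_le_mul_of_nonneg_left h1 (by positivity)
          _ = _ := by ring
    _ = Cst (k + 1) * (n * (n * v) ^ (k + 1)) := by
        rw [Finset.sum_const, Finset.sum_const, Finset.card_range, Cst]
        simp only [nsmul_eq_mul]
        push_cast
        ring

/-- rounding: a sign matrix close to a given matrix with entries in `[-1, 1]` -/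
theorem rounding {n k : ℕ} (hn : 1 ≤ n) (P : Matrix (Fin n) (Fin n) ℝ) (hP : ∀ i j, |P i j| ≤ 1)
    {v : ℝ} (hv : ∀ i j, 1 - P i j ^ 2 ≤ v) (hv1 : v ≤ 1) (hnv : 1 ≤ n * v) :
    ∃ B : Matrix (Fin n) (Fin n) ℝ, (∀ i j, B i j = 1 ∨ B i j = -1) ∧
      (((B - P)ᵀ * (B - P)) ^ (k + 1)).trace ≤ Cst (k + 1) * (n * (n * v) ^ (k + 1)) := by
  have hv0 : 0 ≤ v := by
    by_contra h
    push Not at h
    have : (n : ℝ) * v ≤ 0 := mul_nonpos_of_nonneg_of_nonpos (by positivity) h.le
    linarith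
  obtain ⟨ω, hω⟩ := exists_le_mean (P := fun e : Fin n × Fin n => P e.1 e.2) (fun e => hP _ _) _
    (moment (k := k) hn (fun e : Fin n × Fin n => P e.1 e.2) (fun e => hP _ _) hv0
      (fun e => hv _ _) hv1 hnv)
  refine ⟨Matrix.of fun i j => sg (ω (i, j)), fun i j => ?_, ?_⟩
  · simp only [Matrix.of_apply, sg]
    cases ω (i, j) <;> simp
  · have e : (Matrix.of fun i j => sg (ω (i, j))) - P = NM (fun e : Fin n × Fin n => P e.1 e.2) ω := by
      ext i j
      rfl
    rw [e]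
    exact hω

end Pool.Agent.R19.AH
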