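import Mathlib

/-! The operator norm and the trace of a power. -/

namespace Pool.Agent.R19.AH

open Finset Matrix

theorem cs_dot {n : ℕ} (x y : Fin n → ℝ) : (x ⬝ᵥ y) ^ 2 ≤ (x ⬝ᵥ x) * (y ⬝ᵥ y) := by
  have h := Finset.sum_mul_sq_le_sq_mul_sq univ x y
  simp only [dotProduct]
  simpa [sq] using h

theorem dot_self_nonneg' {n : ℕ} (x : Fin n → ℝ) : 0 ≤ x ⬝ᵥ x := by
  simp only [dotProduct]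
  exact Finset.sum_nonneg fun i _ => mul_self_nonneg _

theorem sym_pow {n : ℕ} {A : Matrix (Fin n) (Fin n) ℝ} (hA : Aᵀ = A) (p : ℕ) : (A ^ p)ᵀ = A ^ p := by
  rw [Matrix.transpose_pow, hA]

theorem sq_quad {n : ℕ} {A : Matrix (Fin n) (Fin n) ℝ} (hA : Aᵀ = A) (p : ℕ) (x : Fin n → ℝ) :
    (A ^ p *ᵥ x) ⬝ᵥ (A ^ p *ᵥ x) = x ⬝ᵥ (A ^ (2 * p) *ᵥ x) := by
  rw [Matrix.dotProduct_mulVec, Matrix.vecMul_mulVec, ← Matrix.dotProduct_mulVec]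
  rw [sym_pow hA, two_mul, pow_add]

theorem quad_pow {n : ℕ} {A : Matrix (Fin n) (Fin n) ℝ} (hA : Aᵀ = A) (x : Fin n → ℝ)
    (h0 : 0 ≤ x ⬝ᵥ (A *ᵥ x)) (j : ℕ) :
    (x ⬝ᵥ (A *ᵥ x)) ^ (2 ^ j) ≤ (x ⬝ᵥ x) ^ (2 ^ j - 1) * (x ⬝ᵥ (A ^ (2 ^ j) *ᵥ x)) := by
  induction j with
  | zero => simp
  | succ j ih =>
    have h1 : 0 ≤ (x ⬝ᵥ (A *ᵥ x)) ^ (2 ^ j) := pow_nonneg h0 _
    have h2 : ((x ⬝ᵥ (A *ᵥ x)) ^ (2 ^ j)) ^ 2 ≤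
        ((x ⬝ᵥ x) ^ (2 ^ j - 1) * (x ⬝ᵥ (A ^ (2 ^ j) *ᵥ x))) ^ 2 := pow_le_pow_left₀ h1 ih 2
    have h3 : (x ⬝ᵥ (A ^ (2 ^ j) *ᵥ x)) ^ 2 ≤ (x ⬝ᵥ x) * (x ⬝ᵥ (A ^ (2 ^ (j + 1)) *ᵥ x)) := by
      have h4 := cs_dot x (A ^ (2 ^ j) *ᵥ x)
      rw [sq_quad hA] at h4
      have e : 2 ^ (j + 1) = 2 * 2 ^ j := by rw [pow_succ]; ring
      rw [e]
      exact h4
    have hp : 1 ≤ 2 ^ j := Nat.one_le_two_pow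
    calc (x ⬝ᵥ (A *ᵥ x)) ^ (2 ^ (j + 1)) = ((x ⬝ᵥ (A *ᵥ x)) ^ (2 ^ j)) ^ 2 := by
          rw [← pow_mul, pow_succ]
      _ ≤ ((x ⬝ᵥ x) ^ (2 ^ j - 1) * (x ⬝ᵥ (A ^ (2 ^ j) *ᵥ x))) ^ 2 := h2
      _ = ((x ⬝ᵥ x) ^ (2 ^ j - 1)) ^ 2 * (x ⬝ᵥ (A ^ (2 ^ j) *ᵥ x)) ^ 2 := by ring
      _ ≤ ((x ⬝ᵥ x) ^ (2 ^ j - 1)) ^ 2 * ((x ⬝ᵥ x) * (x ⬝ᵥ (A ^ (2 ^ (j + 1)) *ᵥ x))) :=
          mul_le_mul_of_nonneg_left h3 (by positivity)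
      _ = (x ⬝ᵥ x) ^ ((2 ^ j - 1) * 2 + 1) * (x ⬝ᵥ (A ^ (2 ^ (j + 1)) *ᵥ x)) := by
          rw [pow_succ (x ⬝ᵥ x) ((2 ^ j - 1) * 2), pow_mul]; ring
      _ = _ := by
          congr 2
          rw [pow_succ]
          omega

theorem frob {n : ℕ} (M : Matrix (Fin n) (Fin n) ℝ) (x : Fin n → ℝ) :
    (M *ᵥ x) ⬝ᵥ (M *ᵥ x) ≤ (x ⬝ᵥ x) * (Mᵀ * M).trace := by
  have h1 : (Mᵀ * M).trace = ∑ i, (M i) ⬝ᵥ (M i) := by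
    rw [Matrix.trace_mul_comm, Matrix.trace]
    refine Finset.sum_congr rfl fun i _ => ?_
    rw [Matrix.diag_apply, Matrix.mul_apply]
    rfl
  rw [h1, Finset.mul_sum]
  have h2 : (M *ᵥ x) ⬝ᵥ (M *ᵥ x) = ∑ i, (M i ⬝ᵥ x) ^ 2 := by
    simp only [dotProduct, Matrix.mulVec, sq]
  rw [h2]
  refine Finset.sum_le_sum fun i _ => ?_
  have := cs_dot (M i) x
  linarith [mul_comm (M i ⬝ᵥ M i) (x ⬝ᵥ x)]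

/-- the operator norm of `N` and the trace of a power of `Nᵀ * N` -/
theorem op_bound {n : ℕ} (N : Matrix (Fin n) (Fin n) ℝ) (j : ℕ) (x : Fin n → ℝ) :
    ((N *ᵥ x) ⬝ᵥ (N *ᵥ x)) ^ (2 ^ (j + 1)) ≤
      (x ⬝ᵥ x) ^ (2 ^ (j + 1)) * ((Nᵀ * N) ^ (2 ^ (j + 1))).trace := by
  obtain ⟨A, hA⟩ : ∃ A, A = Nᵀ * N := ⟨_, rfl⟩
  have hAs : Aᵀ = A := by rw [hA, Matrix.transpose_mul, Matrix.transpose_transpose]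
  have h1 : (N *ᵥ x) ⬝ᵥ (N *ᵥ x) = x ⬝ᵥ (A *ᵥ x) := by
    rw [hA, Matrix.dotProduct_mulVec, Matrix.vecMul_mulVec, ← Matrix.dotProduct_mulVec]
  rw [h1, ← hA]
  have h2 := quad_pow hAs x (by rw [← h1]; exact dot_self_nonneg' _) (j + 1)
  refine h2.trans ?_
  have e : 2 ^ (j + 1) = 2 * 2 ^ j := by rw [pow_succ]; ring
  have h3 : x ⬝ᵥ (A ^ (2 ^ (j + 1)) *ᵥ x) ≤ (x ⬝ᵥ x) * (A ^ (2 ^ (j + 1))).trace := by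
    have h4 := frob (A ^ (2 ^ j)) x
    rw [sq_quad hAs, sym_pow hAs, ← pow_add, ← two_mul] at h4
    rw [e]
    exact h4
  have h5 : 0 ≤ (x ⬝ᵥ x) ^ (2 ^ (j + 1) - 1) := pow_nonneg (dot_self_nonneg' x) _
  calc (x ⬝ᵥ x) ^ (2 ^ (j + 1) - 1) * (x ⬝ᵥ (A ^ (2 ^ (j + 1)) *ᵥ x)) ≤
      (x ⬝ᵥ x) ^ (2 ^ (j + 1) - 1) * ((x ⬝ᵥ x) * (A ^ (2 ^ (j + 1))).trace) :=
        mul_le_mul_of_nonneg_left h3 h5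
    _ = _ := by
        rw [← mul_assoc, ← pow_succ, Nat.sub_add_cancel Nat.one_le_two_pow]

end Pool.Agent.R19.AH
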