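import Pool.Agent.R19.AH.Close
import Pool.Agent.R19.AH.Round
import Pool.Agent.R19.AH.Schatten

/-! A near-isometric sign matrix of order `n` from a Hadamard matrix of order `n + r`. -/

namespace Pool.Agent.R19.AH

open Finset Matrix

theorem approx {n r : ℕ} (hn : 1 ≤ n) (H : Matrix (Fin (n + r)) (Fin (n + r)) ℤ)
    (hS : ∀ i j, H i j = 1 ∨ H i j = -1)
    (hH : H * H.transpose = ((n + r : ℕ) : ℤ) • (1 : Matrix (Fin (n + r)) (Fin (n + r)) ℤ))
    (hr : 16 * ((r : ℝ) + 1) ≤ √n) (j : ℕ) :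
    ∃ (B P : Matrix (Fin n) (Fin n) ℝ) (c v : ℝ), (∀ i j, B i j = 1 ∨ B i j = -1) ∧
      0 ≤ c ∧ |c - √n| ≤ 4 * (r + 1) ∧ (∀ x, (P *ᵥ x) ⬝ᵥ (P *ᵥ x) = c ^ 2 * (x ⬝ᵥ x)) ∧
      0 ≤ v ∧ v ≤ 16 * (r + 1) * √n ∧
      ∀ x, (((B - P) *ᵥ x) ⬝ᵥ ((B - P) *ᵥ x)) ^ (2 ^ (j + 1)) ≤
        (x ⬝ᵥ x) ^ (2 ^ (j + 1)) * (Cst (2 ^ (j + 1)) * (n * v ^ (2 ^ (j + 1)))) := by
  obtain ⟨m, hm⟩ : ∃ m : ℝ, m = ((n + r : ℕ) : ℝ) := ⟨_, rfl⟩
  have hn1 : (1 : ℝ) ≤ n := by exact_mod_cast hn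
  have hr0 : (0 : ℝ) ≤ r := Nat.cast_nonneg r
  have hmn : m = n + r := by rw [hm]; push_cast; ring
  have hm1 : 1 ≤ m := by rw [hmn]; linarith
  have hmpos : 0 < m := by linarith
  have hsm : 0 < √m := Real.sqrt_pos.2 hmpos
  have hsm2 : √m ^ 2 = m := Real.sq_sqrt hmpos.le
  have hsn : 0 < √n := Real.sqrt_pos.2 (by linarith)
  have hsn2 : √(n : ℝ) ^ 2 = n := Real.sq_sqrt (by linarith)
  have hnm : √(n : ℝ) ≤ √m := Real.sqrt_le_sqrt (by rw [hmn]; linarith)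
  -- the real matrix
  obtain ⟨U, hU1, S, hS1, hS2⟩ := close_loop hmpos n r (H.map (Int.cast : ℤ → ℝ))ᵀ (by
      rw [Matrix.transpose_transpose]
      have h1 : (H * H.transpose).map (Int.cast : ℤ → ℝ) =
          (((n + r : ℕ) : ℤ) • (1 : Matrix (Fin (n + r)) (Fin (n + r)) ℤ)).map
            (Int.cast : ℤ → ℝ) := by rw [hH]
      have h2 : (H * H.transpose).map (Int.cast : ℤ → ℝ) =
          H.map (Int.cast : ℤ → ℝ) * (H.map (Int.cast : ℤ → ℝ))ᵀ := by
        ext a b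
        simp [Matrix.mul_apply]
      rw [← h2, h1]
      ext a b
      rw [Matrix.map_apply, Matrix.smul_apply, Matrix.smul_apply, Matrix.one_apply,
        Matrix.one_apply, hm]
      split_ifs <;> simp) (by
      intro a b
      rw [Matrix.transpose_apply, Matrix.map_apply]
      rcases hS b a with h | h <;> rw [h] <;> simp) (by linarith)
  obtain ⟨e, he⟩ : ∃ e : ℝ, e = 4 * (r + 1) / √m := ⟨_, rfl⟩
  have he0 : 0 < e := by rw [he]; positivity
  have he1 : e ≤ 1 / 4 := by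
    rw [he, div_le_iff₀ hsm]
    linarith
  have hle : 4 * (r : ℝ) / √m ≤ e := by
    rw [he]
    apply div_le_div_of_nonneg_right _ hsm.le
    linarith
  have hUb : ∀ i j, 1 - e ≤ |U i j| ∧ |U i j| ≤ 1 + e := by
    intro i j
    have h1 := (hS2 i j).trans hle
    have h2 : |S i j| = 1 := by
      rcases hS1 i j with h | h <;> rw [h] <;> simp
    have h3 := abs_sub_abs_le_abs_sub (U i j) (S i j)
    have h4 := abs_sub_abs_le_abs_sub (S i j) (U i j)
    rw [abs_sub_comm] at h4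
    constructor <;> linarith
  have h1e : 0 < 1 + e := by linarith
  obtain ⟨P, hP⟩ : ∃ P : Matrix (Fin n) (Fin n) ℝ, P = (1 / (1 + e)) • U := ⟨_, rfl⟩
  have hPa : ∀ i j, |P i j| = |U i j| / (1 + e) := by
    intro i j
    rw [hP, Matrix.smul_apply, smul_eq_mul, abs_mul, abs_of_pos (by positivity : 0 < 1 / (1 + e))]
    ring
  have hP1 : ∀ i j, |P i j| ≤ 1 := by
    intro i j
    rw [hPa, div_le_one h1e]
    exact (hUb i j).2
  have hv : ∀ i j, 1 - P i j ^ 2 ≤ 4 * e := by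
    intro i j
    rw [← sq_abs, hPa, div_pow]
    have h1 : (1 - e) ^ 2 ≤ |U i j| ^ 2 := pow_le_pow_left₀ (by linarith) (hUb i j).1 2
    have h2 : (1 - e) ^ 2 / (1 + e) ^ 2 ≤ |U i j| ^ 2 / (1 + e) ^ 2 :=
      div_le_div_of_nonneg_right h1 (by positivity)
    have h3 : 1 - (1 - e) ^ 2 / (1 + e) ^ 2 = 4 * e / (1 + e) ^ 2 := by
      field_simp
      ring
    have h4 : 4 * e / (1 + e) ^ 2 ≤ 4 * e := by
      apply div_le_self (by linarith)
      nlinarith
    linarith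
  have hnv : 1 ≤ (n : ℝ) * (4 * e) := by
    rw [he]
    have h1 : √m ≤ m := by nlinarith [Real.one_le_sqrt.2 hm1]
    have h2 : m ≤ n * (r + 1) := by rw [hmn]; nlinarith
    have h3 : (n : ℝ) * (4 * (4 * (r + 1) / √m)) = 16 * (n * (r + 1)) / √m := by ring
    rw [h3, le_div_iff₀ hsm]
    linarith
  have hexp : 2 ^ (j + 1) - 1 + 1 = 2 ^ (j + 1) := Nat.sub_add_cancel Nat.one_le_two_pow
  obtain ⟨B, hB1, hB2⟩ := rounding (k := 2 ^ (j + 1) - 1) hn P hP1 hv (by linarith) hnv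
  rw [hexp] at hB2
  refine ⟨B, P, √m / (1 + e), n * (4 * e), hB1, by positivity, ?_, ?_, by positivity, ?_, ?_⟩
  · -- the constant `c`
    have h1 : √m / (1 + e) ≤ √m := div_le_self hsm.le (by linarith)
    have h2 : √m ≤ √n + r := by
      rw [hmn]
      apply Real.sqrt_le_iff.2
      constructor
      · positivity
      · have h5 : 1 ≤ √(n : ℝ) := Real.one_le_sqrt.2 hn1
        nlinarith
    have h3 : √m * (1 - e) ≤ √m / (1 + e) := by
      rw [le_div_iff₀ h1e]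
      nlinarith [mul_nonneg hsm.le (sq_nonneg e)]
    have h4 : √m * e = 4 * (r + 1) := by
      rw [he]
      field_simp
    rw [abs_le]
    constructor
    · nlinarith
    · nlinarith
  · intro x
    have h1 : (P *ᵥ x) ⬝ᵥ (P *ᵥ x) = x ⬝ᵥ ((Pᵀ * P) *ᵥ x) := by
      rw [Matrix.dotProduct_mulVec, Matrix.vecMul_mulVec, ← Matrix.dotProduct_mulVec]
    rw [h1, hP, Matrix.transpose_smul, Matrix.smul_mul, Matrix.mul_smul, hU1, smul_smul,
      smul_smul, Matrix.smul_mulVec, Matrix.one_mulVec, dotProduct_smul, smul_eq_mul, div_pow,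
      hsm2]
    field_simp
  · rw [he]
    have h1 : (n : ℝ) * (4 * (4 * (r + 1) / √m)) = 16 * (r + 1) * (n / √m) := by ring
    rw [h1]
    apply mul_le_mul_of_nonneg_left _ (by positivity)
    rw [div_le_iff₀ hsm]
    nlinarith
  · intro x
    have h1 := op_bound (B - P) j x
    refine h1.trans ?_
    apply mul_le_mul_of_nonneg_left hB2
    exact pow_nonneg (dot_self_nonneg' x) _

end Pool.Agent.R19.AH
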