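import Mathlib

/-! Closing the loop: from an orthogonal matrix of order `k + r` near a sign matrix to one of
order `k`. -/

namespace Pool.Agent.R19.AH

open Finset Matrix

/-- the entries of `U` are within `e` of those of a sign matrix -/
def Near {n : ℕ} (U : Matrix (Fin n) (Fin n) ℝ) (e : ℝ) : Prop :=
  ∃ S : Matrix (Fin n) (Fin n) ℝ, (∀ i j, S i j = 1 ∨ S i j = -1) ∧ ∀ i j, |U i j - S i j| ≤ e

theorem close_step {k : ℕ} {m : ℝ} (hm : 0 < m) (U : Matrix (Fin (k + 1)) (Fin (k + 1)) ℝ)
    (hU : Uᵀ * U = m • (1 : Matrix (Fin (k + 1)) (Fin (k + 1)) ℝ)) {e : ℝ} (he : e ≤ 1)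
    (hN : Near U e) :
    ∃ U' : Matrix (Fin k) (Fin k) ℝ, U'ᵀ * U' = m • (1 : Matrix (Fin k) (Fin k) ℝ) ∧
      Near U' (e + 4 / √m) := by
  obtain ⟨S, hS, hUS⟩ := hN
  obtain ⟨d, hd⟩ : ∃ d, d = U (Fin.last k) (Fin.last k) := ⟨_, rfl⟩
  have hsm : 0 < √m := Real.sqrt_pos.2 hm
  have hsm2 : √m ^ 2 = m := Real.sq_sqrt hm.le
  obtain ⟨s, hs1, hs2⟩ : ∃ s : ℝ, √m ≤ |s| ∧ (s + d) ^ 2 = m := by
    rcases le_total d 0 with h | h
    · refine ⟨√m - d, ?_, by ring_nf; linarith⟩
      rw [abs_of_pos (by linarith)]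
      linarith
    · refine ⟨-√m - d, ?_, by ring_nf; linarith⟩
      rw [abs_of_neg (by linarith)]
      linarith
  have hs0 : s ≠ 0 := by
    intro h
    rw [h, abs_zero] at hs1
    linarith
  have hsp : 0 < |s| := abs_pos.2 hs0
  have hb : ∀ i j, |U i j| ≤ 2 := by
    intro i j
    have h1 := hUS i j
    have h2 : |S i j| = 1 := by
      rcases hS i j with h | h <;> rw [h] <;> simp
    calc |U i j| = |(U i j - S i j) + S i j| := by ring_nf
      _ ≤ |U i j - S i j| + |S i j| := abs_add_le _ _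
      _ ≤ 2 := by rw [h2]; linarith
  -- the relations
  have hrel : ∀ a b : Fin (k + 1), ∑ i, U i a * U i b = if a = b then m else 0 := by
    intro a b
    have h := congrFun (congrFun hU a) b
    rw [Matrix.mul_apply, Matrix.smul_apply, Matrix.one_apply] at h
    simp only [Matrix.transpose_apply, smul_eq_mul, mul_ite, mul_one, mul_zero] at h
    exact h
  refine ⟨Matrix.of fun i j => U i.castSucc j.castSucc +
    U i.castSucc (Fin.last k) * U (Fin.last k) j.castSucc / s, ?_,
    Matrix.of fun i j => S i.castSucc j.castSucc, fun i j => hS _ _, fun i j => ?_⟩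
  · ext a b
    rw [Matrix.mul_apply, Matrix.smul_apply, Matrix.one_apply]
    simp only [Matrix.transpose_apply, Matrix.of_apply, smul_eq_mul, mul_ite, mul_one, mul_zero]
    have h1 := hrel a.castSucc b.castSucc
    have h2 := hrel a.castSucc (Fin.last k)
    have h3 := hrel (Fin.last k) b.castSucc
    have h4 := hrel (Fin.last k) (Fin.last k)
    rw [Fin.sum_univ_castSucc] at h1 h2 h3 h4
    rw [if_pos rfl] at h4
    rw [if_neg (Fin.castSucc_lt_last a).ne] at h2
    rw [if_neg (Fin.castSucc_lt_last b).ne'] at h3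
    rw [← hd] at h2 h3 h4
    simp only [Fin.castSucc_inj] at h1
    rw [← h1]
    obtain ⟨p, hp⟩ : ∃ p, p = U (Fin.last k) a.castSucc := ⟨_, rfl⟩
    obtain ⟨q, hq⟩ : ∃ q, q = U (Fin.last k) b.castSucc := ⟨_, rfl⟩
    rw [← hp, ← hq]
    rw [← hp] at h2
    rw [← hq] at h3
    have e1 : ∀ i : Fin k, (U i.castSucc a.castSucc + U i.castSucc (Fin.last k) * p / s) *
        (U i.castSucc b.castSucc + U i.castSucc (Fin.last k) * q / s) =
        U i.castSucc a.castSucc * U i.castSucc b.castSucc +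
        (q / s) * (U i.castSucc a.castSucc * U i.castSucc (Fin.last k)) +
        (p / s) * (U i.castSucc (Fin.last k) * U i.castSucc b.castSucc) +
        (p * q / s ^ 2) * (U i.castSucc (Fin.last k) * U i.castSucc (Fin.last k)) := by
      intro i
      field_simp
      ring
    rw [Finset.sum_congr rfl fun i _ => e1 i, Finset.sum_add_distrib, Finset.sum_add_distrib,
      Finset.sum_add_distrib, ← Finset.mul_sum, ← Finset.mul_sum, ← Finset.mul_sum]
    have h2' : ∑ i : Fin k, U i.castSucc a.castSucc * U i.castSucc (Fin.last k) = - (p * d) := by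
      linarith
    have h3' : ∑ i : Fin k, U i.castSucc (Fin.last k) * U i.castSucc b.castSucc = - (d * q) := by
      linarith
    have h4' : ∑ i : Fin k, U i.castSucc (Fin.last k) * U i.castSucc (Fin.last k) = m - d * d := by
      linarith
    rw [h2', h3', h4']
    have h5 : m = (s + d) ^ 2 := hs2.symm
    rw [h5]
    field_simp
    ring
  · simp only [Matrix.of_apply]
    have h1 := hUS i.castSucc j.castSucc
    have h2 : |U i.castSucc (Fin.last k) * U (Fin.last k) j.castSucc / s| ≤ 4 / √m := by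
      rw [abs_div, abs_mul]
      have h3 := hb i.castSucc (Fin.last k)
      have h4 := hb (Fin.last k) j.castSucc
      have h5 : |U i.castSucc (Fin.last k)| * |U (Fin.last k) j.castSucc| ≤ 4 := by
        have := mul_le_mul h3 h4 (abs_nonneg _) (by norm_num)
        linarith
      exact div_le_div₀ (by norm_num) h5 hsm hs1
    calc |U i.castSucc j.castSucc + U i.castSucc (Fin.last k) * U (Fin.last k) j.castSucc / s -
          S i.castSucc j.castSucc| =
        |(U i.castSucc j.castSucc - S i.castSucc j.castSucc) +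
          U i.castSucc (Fin.last k) * U (Fin.last k) j.castSucc / s| := by ring_nf
      _ ≤ _ := abs_add_le _ _
      _ ≤ _ := by linarith

theorem close_loop {m : ℝ} (hm : 0 < m) (n r : ℕ) (H : Matrix (Fin (n + r)) (Fin (n + r)) ℝ)
    (hH : Hᵀ * H = m • (1 : Matrix (Fin (n + r)) (Fin (n + r)) ℝ))
    (hS : ∀ i j, H i j = 1 ∨ H i j = -1) (hr : 4 * (r : ℝ) ≤ √m) :
    ∃ U : Matrix (Fin n) (Fin n) ℝ, Uᵀ * U = m • (1 : Matrix (Fin n) (Fin n) ℝ) ∧
      Near U (4 * r / √m) := by
  have hsm : 0 < √m := Real.sqrt_pos.2 hm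
  have key : ∀ t : ℕ, t ≤ r → ∃ U : Matrix (Fin (n + (r - t))) (Fin (n + (r - t))) ℝ,
      Uᵀ * U = m • (1 : Matrix (Fin (n + (r - t))) (Fin (n + (r - t))) ℝ) ∧
      Near U (4 * t / √m) := by
    intro t
    induction t with
    | zero =>
      intro _
      refine ⟨H, hH, H, hS, fun i j => ?_⟩
      simp
    | succ t ih =>
      intro ht
      obtain ⟨U, hU1, hU2⟩ := ih (by omega)
      have e1 : n + (r - t) = (n + (r - (t + 1))) + 1 := by omega
      have he : 4 * (t : ℝ) / √m ≤ 1 := by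
        rw [div_le_one hsm]
        have : (t : ℝ) ≤ r := by exact_mod_cast (by omega : t ≤ r)
        linarith
      obtain ⟨U', h1, h2⟩ : ∃ U' : Matrix (Fin (n + (r - (t + 1)))) (Fin (n + (r - (t + 1)))) ℝ,
          U'ᵀ * U' = m • (1 : Matrix (Fin (n + (r - (t + 1)))) (Fin (n + (r - (t + 1)))) ℝ) ∧
          Near U' (4 * t / √m + 4 / √m) := by
        revert U
        rw [e1]
        intro U hU1 hU2
        exact close_step hm U hU1 he hU2
      refine ⟨U', h1, ?_⟩
      have e2 : 4 * ((t + 1 : ℕ) : ℝ) / √m = 4 * t / √m + 4 / √m := by push_cast; ring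
      rw [e2]
      exact h2
  have h := key r le_rfl
  rw [Nat.sub_self] at h
  exact h

end Pool.Agent.R19.AH
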