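import Mathlib

/-! Independent signs with prescribed means: expectations of monomials in the noise. -/

namespace Pool.Agent.R19.AH

open Finset

/-- weight of the value `b` of a sign with mean `p` -/
noncomputable def wt (p : ℝ) (b : Bool) : ℝ := if b then (1 + p) / 2 else (1 - p) / 2

/-- the sign -/
def sg (b : Bool) : ℝ := if b then 1 else -1

/-- the noise -/
def nz (p : ℝ) (b : Bool) : ℝ := sg b - p

theorem wt_nonneg {p : ℝ} (hp : |p| ≤ 1) (b : Bool) : 0 ≤ wt p b := by
  have := abs_le.1 hp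
  cases b
  · simp only [wt, Bool.false_eq_true, if_false]; linarith
  · simp only [wt, if_true]; linarith

theorem wt_sum (p : ℝ) : ∑ b, wt p b = 1 := by
  rw [Fintype.sum_bool]
  simp only [wt, if_true, Bool.false_eq_true, if_false]
  ring

theorem nz_one (p : ℝ) : ∑ b, wt p b * nz p b = 0 := by
  rw [Fintype.sum_bool]
  simp only [wt, nz, sg, if_true, Bool.false_eq_true, if_false]
  ring

theorem nz_abs {p : ℝ} (hp : |p| ≤ 1) (b : Bool) : |nz p b| ≤ 2 := by
  have := abs_le.1 hp
  rw [abs_le]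
  cases b
  · simp only [nz, sg, Bool.false_eq_true, if_false]; constructor <;> linarith
  · simp only [nz, sg, if_true]; constructor <;> linarith

theorem nz_pow {p : ℝ} (hp : |p| ≤ 1) {m : ℕ} (hm : 2 ≤ m) :
    |∑ b, wt p b * nz p b ^ m| ≤ 2 ^ m * (1 - p ^ 2) := by
  have hv : ∑ b, wt p b * nz p b ^ 2 = 1 - p ^ 2 := by
    rw [Fintype.sum_bool]
    simp only [wt, nz, sg, if_true, Bool.false_eq_true, if_false]
    ring
  obtain ⟨k, rfl⟩ : ∃ k, m = 2 + k := ⟨m - 2, by omega⟩
  calc |∑ b, wt p b * nz p b ^ (2 + k)| ≤ ∑ b, |wt p b * nz p b ^ (2 + k)| :=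
        Finset.abs_sum_le_sum_abs _ _
    _ ≤ ∑ b, 2 ^ k * (wt p b * nz p b ^ 2) := by
        refine Finset.sum_le_sum fun b _ => ?_
        rw [abs_mul, abs_of_nonneg (wt_nonneg hp b), pow_add, abs_mul, abs_of_nonneg (sq_nonneg _),
          abs_pow]
        have h1 : |nz p b| ^ k ≤ 2 ^ k := pow_le_pow_left₀ (abs_nonneg _) (nz_abs hp b) k
        have h2 : 0 ≤ wt p b * nz p b ^ 2 := mul_nonneg (wt_nonneg hp b) (sq_nonneg _)
        nlinarith
    _ = 2 ^ k * (1 - p ^ 2) := by rw [← Finset.mul_sum, hv]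
    _ ≤ 2 ^ (2 + k) * (1 - p ^ 2) := by
        apply mul_le_mul_of_nonneg_right
        · exact pow_le_pow_right₀ (by norm_num) (by omega)
        · have := abs_le.1 hp
          nlinarith

variable {ι : Type*} [Fintype ι] [DecidableEq ι]

/-- weight of a sign pattern -/
noncomputable def W (P : ι → ℝ) (ω : ι → Bool) : ℝ := ∏ e, wt (P e) (ω e)

theorem W_nonneg {P : ι → ℝ} (hP : ∀ e, |P e| ≤ 1) (ω : ι → Bool) : 0 ≤ W P ω :=
  Finset.prod_nonneg fun e _ => wt_nonneg (hP e) _

theorem E_prod (P : ι → ℝ) (h : ι → Bool → ℝ) :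
    ∑ ω, W P ω * ∏ e, h e (ω e) = ∏ e, ∑ b, wt (P e) b * h e b := by
  rw [Finset.prod_univ_sum]
  rw [Fintype.piFinset_univ]
  refine Finset.sum_congr rfl fun ω _ => ?_
  rw [W, ← Finset.prod_mul_distrib]

theorem W_sum (P : ι → ℝ) : ∑ ω, W P ω = 1 := by
  have h := E_prod P (fun _ _ => 1)
  simp only [Finset.prod_const_one, mul_one] at h
  rw [h]
  exact Finset.prod_eq_one fun e _ => wt_sum _

/-- the mean does not exceed the maximum -/
theorem exists_le_mean {P : ι → ℝ} (hP : ∀ e, |P e| ≤ 1) (f : (ι → Bool) → ℝ) {c : ℝ}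
    (h : ∑ ω, W P ω * f ω ≤ c) : ∃ ω, f ω ≤ c := by
  by_contra hcon
  push Not at hcon
  have h1 : ∑ ω, W P ω * c < ∑ ω, W P ω * f ω := by
    apply Finset.sum_lt_sum
    · intro ω _
      exact mul_le_mul_of_nonneg_left (hcon ω).le (W_nonneg hP ω)
    · by_contra h2
      push Not at h2
      have h3 : ∀ ω, W P ω = 0 := by
        intro ω
        rcases (W_nonneg hP ω).eq_or_lt with h4 | h4
        · exact h4.symm
        · have := h2 ω (Finset.mem_univ _)
          have := mul_lt_mul_of_pos_left (hcon ω) h4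
          linarith
      have h4 := W_sum P
      rw [Finset.sum_eq_zero fun ω _ => h3 ω] at h4
      norm_num at h4
  rw [← Finset.sum_mul, W_sum, one_mul] at h1
  linarith

/-- expectation of a monomial -/
theorem E_mono {T : Type*} [Fintype T] (P : ι → ℝ) (hP : ∀ e, |P e| ≤ 1) {v : ℝ}
    (hv : ∀ e, 1 - P e ^ 2 ≤ v) (γ : T → ι) :
    ∑ ω, W P ω * ∏ t, nz (P (γ t)) (ω (γ t)) ≤
      if ∃ e ∈ univ.image γ, (univ.filter fun t => γ t = e).card = 1 then 0
      else 2 ^ Fintype.card T * v ^ (univ.image γ).card := by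
  have h1 : ∀ ω : ι → Bool, ∏ t, nz (P (γ t)) (ω (γ t)) =
      ∏ e, nz (P e) (ω e) ^ (univ.filter fun t => γ t = e).card := by
    intro ω
    rw [← Finset.prod_fiberwise (s := univ) (g := γ)]
    refine Finset.prod_congr rfl fun e _ => ?_
    rw [← Finset.prod_const]
    refine Finset.prod_congr rfl fun t ht => ?_
    rw [(Finset.mem_filter.1 ht).2]
  rw [Finset.sum_congr rfl fun ω _ => by rw [h1 ω],
    E_prod P (fun e b => nz (P e) b ^ (univ.filter fun t => γ t = e).card)]
  split_ifs with h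
  · obtain ⟨e, he, hc⟩ := h
    apply le_of_eq
    apply Finset.prod_eq_zero (Finset.mem_univ e)
    rw [hc]
    simpa using nz_one (P e)
  · push Not at h
    have h2 : ∀ e ∈ univ.image γ, 2 ≤ (univ.filter fun t => γ t = e).card := by
      intro e he
      have h3 := h e he
      obtain ⟨t, -, ht⟩ := Finset.mem_image.1 he
      have h4 : 0 < (univ.filter fun t => γ t = e).card :=
        Finset.card_pos.2 ⟨t, Finset.mem_filter.2 ⟨Finset.mem_univ _, ht⟩⟩
      omega
    have h3 : ∏ e, ∑ b, wt (P e) b * nz (P e) b ^ (univ.filter fun t => γ t = e).card =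
        ∏ e ∈ univ.image γ, ∑ b, wt (P e) b * nz (P e) b ^ (univ.filter fun t => γ t = e).card := by
      symm
      apply Finset.prod_subset (Finset.subset_univ _)
      intro e _ he
      have h4 : (univ.filter fun t => γ t = e).card = 0 := by
        rw [Finset.card_eq_zero, Finset.filter_eq_empty_iff]
        intro t _ ht
        exact he (Finset.mem_image.2 ⟨t, Finset.mem_univ _, ht⟩)
      rw [h4]
      simpa using wt_sum (P e)
    rw [h3]
    refine (le_abs_self _).trans ?_
    rw [Finset.abs_prod]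
    calc ∏ e ∈ univ.image γ, |∑ b, wt (P e) b * nz (P e) b ^ (univ.filter fun t => γ t = e).card|
        ≤ ∏ e ∈ univ.image γ, 2 ^ (univ.filter fun t => γ t = e).card * v := by
          refine Finset.prod_le_prod (fun e _ => abs_nonneg _) fun e he => ?_
          refine (nz_pow (hP e) (h2 e he)).trans ?_
          exact mul_le_mul_of_nonneg_left (hv e) (by positivity)
      _ = 2 ^ Fintype.card T * v ^ (univ.image γ).card := by
          rw [Finset.prod_mul_distrib, Finset.prod_const, Finset.prod_pow_eq_pow_sum]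
          congr 2
          rw [← Finset.card_eq_sum_card_image, Finset.card_univ]

end Pool.Agent.R19.AH
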